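import Pool.Agent.H6.RCQ.Stmts4

set_option autoImplicit false
set_option linter.unusedVariables false

namespace Pool.Agent.H80.RCQ.GA

open Pool.Agent.H6.RCQ Pool.Agent.H39.RC
open Classical

theorem ga : GAStmt := by
  intro V G R S I O hL hI hO hno
  rw [← Finset.card_product]
  have hsub : I ×ˢ O ⊆ S.biUnion (fun s => (I.filter (fun i => G.Adj s i)) ×ˢ
      (O.filter (fun o => G.Adj s o))) := by
    rintro ⟨i, o⟩ hio
    rw [Finset.mem_product] at hio
    obtain ⟨hi, ho⟩ := hio
    have hi' := Finset.mem_sdiff.1 (hI hi)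
    have ho' := Finset.mem_sdiff.1 (hO ho)
    have hn := hno i hi o ho
    have hio : i ≠ o := by
      rintro rfl
      exact hn ⟨{i}, rfl, rfl, con_single i, fun z hz => by
        rw [Set.mem_singleton_iff] at hz; rw [hz]; exact fun h => hi'.2 h⟩
    have hi2 : i ∉ (↑S : Set V) := fun h => hi'.2 h
    have ho2 : o ∉ (↑S : Set V) := fun h => ho'.2 h
    rcases hL.lk i hi'.1 o ho'.1 hio with h | ⟨w, -, h1, h2⟩
    · exfalso
      refine hn ⟨{i, o}, by simp, by simp, con_pair (Or.inr h), ?_⟩
      rintro z (rfl | rfl)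
      · exact hi2
      · exact ho2
    · by_cases hw : w ∈ S
      · simp only [Finset.mem_biUnion, Finset.mem_product, Finset.mem_filter]
        exact ⟨w, hw, ⟨hi, h1.symm⟩, ho, h2⟩
      · exfalso
        refine hn ⟨insert i {w, o}, by simp, by simp, (con_pair (Or.inr h2)).insert (by simp)
          h1.symm, ?_⟩
        rintro z (rfl | rfl | rfl)
        · exact hi2
        · exact fun h => hw h
        · exact ho2
  refine (Finset.card_le_card hsub).trans (Finset.card_biUnion_le.trans (le_of_eq ?_))
  refine Finset.sum_congr rfl fun s _ => ?_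
  rw [Finset.card_product]

theorem ci : CIStmt := by
  intro V G x Dx hP hD
  obtain ⟨σ, h1, h2⟩ := hP.cyc x
  have hinj : Set.InjOn σ (Dx : Set V) := fun a ha b hb h => h1 a b (hD a ha) (hD b hb) h
  have hcard : (Dx.image σ).card = Dx.card := Finset.card_image_of_injOn hinj
  let e := (Dx.image σ).orderEmbOfFin hcard
  have he : ∀ i : Fin Dx.card, ∃ d ∈ Dx, σ d = e i := fun i => by
    exact Finset.mem_image.1 (Finset.orderEmbOfFin_mem (Dx.image σ) hcard i)
  choose f hf hf' using he
  refine ⟨fun i => if h : i < Dx.card then f ⟨i, h⟩ else x, ?_, ?_, ?_, ?_⟩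
  · intro i hi j hj h
    simp only [dif_pos hi, dif_pos hj] at h
    have : e ⟨i, hi⟩ = e ⟨j, hj⟩ := by rw [← hf', ← hf', h]
    simpa using e.injective this
  · intro i hi
    simp only [dif_pos hi]
    exact hf _
  · intro d hd
    have h3 : σ d ∈ Set.range e := by
      rw [Finset.range_orderEmbOfFin]
      simpa using ⟨d, hd, rfl⟩
    obtain ⟨i, hi⟩ := h3
    refine ⟨i.1, i.2, ?_⟩
    simp only [dif_pos i.2]
    refine hinj (hf _) hd ?_
    rw [hf']
    exact hi
  · intro i j k l hij hjk hkl hl
    have hk : k < Dx.card := by omega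
    have hj : j < Dx.card := by omega
    have hi : i < Dx.card := by omega
    simp only [dif_pos hi, dif_pos hj, dif_pos hk, dif_pos hl]
    refine h2 _ _ _ _ (hD _ (hf _)) (hD _ (hf _)) (hD _ (hf _)) (hD _ (hf _)) ?_ ?_ ?_
    · rw [hf', hf']
      exact e.strictMono hij
    · rw [hf', hf']
      exact e.strictMono hjk
    · rw [hf', hf']
      exact e.strictMono hkl

end Pool.Agent.H80.RCQ.GA
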