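import Pool.Agent.H6.RCQ.Stmts4

set_option autoImplicit false
set_option linter.unusedVariables false

namespace Pool.Agent.H80.RCQ.K23

open Pool.Agent.H6.RCQ Pool.Agent.H39.RC
open Classical

theorem lnk_of_con {V : Type} {G : SimpleGraph V} {X Z : Set V} (hZ : Con G Z) {r t : V}
    (hr : r ∈ Z) (ht : t ∈ Z) (hX : ∀ z ∈ Z, z ∈ X → z = t) (hrX : r ∉ X) (hrt : r ≠ t) :
    Lnk G X r t := by
  obtain ⟨p⟩ := hZ.preconnected ⟨r, hr⟩ ⟨t, ht⟩
  have key : ∀ (u v : Z) (p : (G.induce Z).Walk u v), v.1 = t → u.1 ∉ X → u.1 ≠ t →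
      Lnk G X u.1 t := by
    intro u v p
    induction p with
    | @nil u =>
      intro h1 _ h2
      exact absurd h1 h2
    | @cons u c v huc p ih =>
      intro h1 h2 h3
      have hadj : G.Adj u.1 c.1 := huc
      by_cases hc : c.1 = t
      · rw [← hc]
        exact lnk_adj h2 hadj
      · exact lnk_cons h2 hadj (ih h1 (fun h => hc (hX _ c.2 h)) hc)
  exact key _ _ p rfl hrX hrt

theorem k23 (hQE : QEStmt) : K23Stmt := by
  intro V G R a b y1 y2 y3 r1 r2 hS ha hb hab h12 h13 h23 a1 a2 a3 b1 b2 b3 hy3 hr1 hr2 e1 e2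
    n1a n1b n11 n12 n13 n2a n2b n21 n22 n23
  set X : Set V := {a, b, y1, y2, y3} with hX
  have hr1X : r1 ∉ X := by simp [hX, *]
  have hr2X : r2 ∉ X := by simp [hX, *]
  have hk := hS.lf.pg.k33
  have hno : ∀ v, Lnk G X v y1 → Lnk G X v y2 → Lnk G X v y3 → False := fun v l1 l2 l3 =>
    no_k33 hk hab h12 h13 h23 (by simp [hX]) (by simp [hX]) (by simp [hX]) (by simp [hX])
      (by simp [hX]) a1 a2 a3 b1 b2 b3 l1 l2 l3
  have q3 : y3 ∉ Q4 y1 y2 a b := by
    simp only [Q4, Set.mem_insert_iff, Set.mem_singleton_iff, not_or]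
    exact ⟨h13.symm, h23.symm, a3.ne', b3.ne'⟩
  have h3 : ∀ r ∈ R, r ∉ X → r ≠ y3 → Lnk G X r y3 := by
    intro r hr hrX hry
    have hrq : r ∉ Q4 y1 y2 a b := by
      intro h
      apply hrX
      simp only [Q4, Set.mem_insert_iff, Set.mem_singleton_iff] at h
      simp only [hX, Set.mem_insert_iff, Set.mem_singleton_iff]
      tauto
    obtain ⟨Z, hrZ, hyZ, hZ, hZq⟩ := hQE V G R y1 y2 a b hS h12 hab ha hb a1.symm b1.symm a2.symm
      b2.symm r hr y3 hy3 hrq q3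
    refine lnk_of_con hZ hrZ hyZ ?_ hrX hry
    intro z hz hzX
    have := hZq z hz
    simp only [Q4, Set.mem_insert_iff, Set.mem_singleton_iff, not_or] at this
    simp only [hX, Set.mem_insert_iff, Set.mem_singleton_iff] at hzX
    tauto
  have l13 := h3 r1 hr1 hr1X n13
  have l23 := h3 r2 hr2 hr2X n23
  have l11 : Lnk G X r1 y1 := lnk_adj hr1X e1.symm
  have no12 : ¬ Lnk G X r1 y2 := fun h => hno r1 l11 h l13
  have q1 : r1 ∉ Q4 y1 y3 a b := by
    simp only [Q4, Set.mem_insert_iff, Set.mem_singleton_iff, not_or]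
    exact ⟨n11, n13, n1a, n1b⟩
  have q2 : r2 ∉ Q4 y1 y3 a b := by
    simp only [Q4, Set.mem_insert_iff, Set.mem_singleton_iff, not_or]
    exact ⟨n21, n23, n2a, n2b⟩
  obtain ⟨Z, h1Z, h2Z, hZ, hZq⟩ := hQE V G R y1 y3 a b hS h13 hab ha hb a1.symm b1.symm a3.symm
    b3.symm r1 hr1 r2 hr2 q1 q2
  have hZX : ∀ z ∈ Z, z ∈ X → z = y2 := by
    intro z hz hzX
    have := hZq z hz
    simp only [Q4, Set.mem_insert_iff, Set.mem_singleton_iff, not_or] at this
    simp only [hX, Set.mem_insert_iff, Set.mem_singleton_iff] at hzX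
    tauto
  by_cases hy : y2 ∈ Z
  · exact no12 (lnk_of_con hZ h1Z hy hZX hr1X n12)
  · exact no12 ⟨Z, h1Z, hZ, fun z hz hzX => hy (hZX z hz hzX ▸ hz), r2, h2Z, e2.symm⟩

end Pool.Agent.H80.RCQ.K23
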