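import Pool.Agent.H6.RCQ.Stmts5

set_option autoImplicit false
set_option linter.unusedVariables false

namespace Pool.Agent.H80.RCQ.SM1

open Pool.Agent.H6.RCQ Pool.Agent.H39.RC Pool.Agent.H3.RCR
open Classical

/-- the data of the gluing -/
structure Glue (F1 F2 : Finset Tri) (v w s t : ℕ) : Prop where
  h1 : Sph F1
  h2 : Sph F2
  hi : ∀ x, x ∈ verts F1 → x ∈ verts F2 → x = v ∨ x = w
  hs : (v, w, s) ∈ F1
  ht : (w, v, t) ∈ F2

/-- the glued set of triangles -/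
def GF (F1 F2 : Finset Tri) (v w s t : ℕ) : Finset Tri :=
  (F1 \ rots (v, w, s)) ∪ (F2 \ rots (w, v, t)) ∪ rots (v, t, s) ∪ rots (w, s, t)

theorem GF_symm (F1 F2 : Finset Tri) (v w s t : ℕ) : GF F2 F1 w v t s = GF F1 F2 v w s t := by
  unfold GF
  rw [Finset.union_comm (F2 \ rots (w, v, t)) (F1 \ rots (v, w, s)),
    Finset.union_right_comm (F1 \ rots (v, w, s) ∪ F2 \ rots (w, v, t))]

theorem mem_rots3 {a b c x y z : ℕ} : (a, b, c) ∈ rots (x, y, z) ↔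
    (a = x ∧ b = y ∧ c = z) ∨ (a = y ∧ b = z ∧ c = x) ∨ (a = z ∧ b = x ∧ c = y) := by
  simp [rots]

theorem mem_GF {F1 F2 : Finset Tri} {v w s t a b c : ℕ} : (a, b, c) ∈ GF F1 F2 v w s t ↔
    ((a, b, c) ∈ F1 ∧ (a, b, c) ∉ rots (v, w, s)) ∨ ((a, b, c) ∈ F2 ∧ (a, b, c) ∉ rots (w, v, t)) ∨
    (a, b, c) ∈ rots (v, t, s) ∨ (a, b, c) ∈ rots (w, s, t) := by
  unfold GF
  simp only [Finset.mem_union, Finset.mem_sdiff]
  tauto

theorem rots_uniq {a b c d x y z : ℕ} (hxy : x ≠ y) (hyz : y ≠ z) (hzx : z ≠ x)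
    (k : (a, b, c) ∈ rots (x, y, z)) (l : (a, b, d) ∈ rots (x, y, z)) : c = d := by
  rw [mem_rots3] at k l
  omega

theorem rots_cross {a b c d v w s t : ℕ} (hvw : v ≠ w) (hws : w ≠ s) (hsv : s ≠ v)
    (hvt : v ≠ t) (hwt : w ≠ t) (hst : s ≠ t)
    (k : (a, b, c) ∈ rots (v, t, s)) (l : (a, b, d) ∈ rots (w, s, t)) : False := by
  rw [mem_rots3] at k l
  omega

theorem rmono {R S : ℕ → ℕ → Prop} {a b : ℕ} (h : Relation.ReflTransGen R a b)
    (f : ∀ p q, R p q → S p q) : Relation.ReflTransGen S a b := by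
  induction h with
  | refl => exact Relation.ReflTransGen.refl
  | @tail p q _ hpq ih => exact ih.tail (f _ _ hpq)

open Relation in
theorem cut_from {R : ℕ → ℕ → Prop} {y0 z0 y : ℕ} (h : ReflTransGen R z0 y) :
    ReflTransGen (fun p q => R p q ∧ ¬ (p = y0 ∧ q = z0)) z0 y := by
  induction h with
  | refl => exact ReflTransGen.refl
  | @tail p q _ hpq ih =>
    by_cases e : p = y0 ∧ q = z0
    · rw [e.2]
    · exact ih.tail ⟨hpq, e⟩

open Relation in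
theorem cut_to {R : ℕ → ℕ → Prop} {y0 z0 y : ℕ} (h : ReflTransGen R y y0) :
    ReflTransGen (fun p q => R p q ∧ ¬ (p = y0 ∧ q = z0)) y y0 := by
  induction h using ReflTransGen.head_induction_on with
  | refl => exact ReflTransGen.refl
  | @head p q hpq _ ih =>
    by_cases e : p = y0 ∧ q = z0
    · rw [e.1]
    · exact ih.head ⟨hpq, e⟩

namespace Glue

variable {F1 F2 : Finset Tri} {v w s t : ℕ}

theorem symm (g : Glue F1 F2 v w s t) : Glue F2 F1 w v t s :=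
  ⟨g.h2, g.h1, fun x h1 h2 => (g.hi x h2 h1).symm, g.ht, g.hs⟩

theorem vw (g : Glue F1 F2 v w s t) : v ≠ w := (g.h1.toPre.nd g.hs).1
theorem ws (g : Glue F1 F2 v w s t) : w ≠ s := (g.h1.toPre.nd g.hs).2.1
theorem sv (g : Glue F1 F2 v w s t) : s ≠ v := (g.h1.toPre.nd g.hs).2.2
theorem s1 (g : Glue F1 F2 v w s t) : s ∈ verts F1 := mem_verts.2 ⟨_, _, g.h1.toPre.rot2 g.hs⟩
theorem v1 (g : Glue F1 F2 v w s t) : v ∈ verts F1 := mem_verts.2 ⟨_, _, g.hs⟩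
theorem w1 (g : Glue F1 F2 v w s t) : w ∈ verts F1 := mem_verts.2 ⟨_, _, g.h1.rot _ _ _ g.hs⟩
theorem s2 (g : Glue F1 F2 v w s t) : s ∉ verts F2 := fun h => by
  rcases g.hi s g.s1 h with h | h
  · exact g.sv h
  · exact g.ws h.symm
theorem t1 (g : Glue F1 F2 v w s t) : t ∉ verts F1 := g.symm.s2
theorem vt (g : Glue F1 F2 v w s t) : v ≠ t := fun h => g.t1 (h ▸ g.v1)
theorem wt (g : Glue F1 F2 v w s t) : w ≠ t := fun h => g.t1 (h ▸ g.w1)
theorem st (g : Glue F1 F2 v w s t) : s ≠ t := fun h => g.t1 (h ▸ g.s1)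

/-- the darts of the first sphere survive -/
theorem adj1 (g : Glue F1 F2 v w s t) {a b : ℕ} (h : Adj F1 a b) : Adj (GF F1 F2 v w s t) a b := by
  obtain ⟨c, hc⟩ := h
  by_cases hr : (a, b, c) ∈ rots (v, w, s)
  · rw [mem_rots3] at hr
    rcases hr with ⟨rfl, rfl, rfl⟩ | ⟨rfl, rfl, rfl⟩ | ⟨rfl, rfl, rfl⟩
    · obtain ⟨d, hd⟩ := g.h2.opp _ _ _ g.ht
      refine ⟨d, mem_GF.2 (Or.inr (Or.inl ⟨hd, ?_⟩))⟩
      rw [mem_rots3]
      rintro (⟨h1, -, -⟩ | ⟨-, h1, -⟩ | ⟨h1, -, -⟩)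
      · exact g.vw h1
      · exact g.wt h1
      · exact g.vt h1
    · exact ⟨t, mem_GF.2 (Or.inr (Or.inr (Or.inr (by rw [mem_rots3]; simp))))⟩
    · exact ⟨t, mem_GF.2 (Or.inr (Or.inr (Or.inl (by rw [mem_rots3]; simp))))⟩
  · exact ⟨c, mem_GF.2 (Or.inl ⟨hc, hr⟩)⟩

theorem adj2 (g : Glue F1 F2 v w s t) {a b : ℕ} (h : Adj F2 a b) :
    Adj (GF F1 F2 v w s t) a b := by
  rw [← GF_symm]
  exact g.symm.adj1 h

theorem adj_iff (g : Glue F1 F2 v w s t) {a b : ℕ} : Adj (GF F1 F2 v w s t) a b ↔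
    Adj F1 a b ∨ Adj F2 a b ∨ (a = s ∧ b = t) ∨ (a = t ∧ b = s) := by
  constructor
  · rintro ⟨c, hc⟩
    rcases mem_GF.1 hc with ⟨h, -⟩ | ⟨h, -⟩ | h | h
    · exact Or.inl ⟨c, h⟩
    · exact Or.inr (Or.inl ⟨c, h⟩)
    · rcases mem_rots3.1 h with ⟨rfl, rfl, rfl⟩ | ⟨rfl, rfl, rfl⟩ | ⟨rfl, rfl, rfl⟩
      · exact Or.inr (Or.inl ⟨_, g.h2.rot _ _ _ g.ht⟩)
      · exact Or.inr (Or.inr (Or.inr ⟨rfl, rfl⟩))
      · exact Or.inl ⟨_, g.h1.toPre.rot2 g.hs⟩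
    · rcases mem_rots3.1 h with ⟨rfl, rfl, rfl⟩ | ⟨rfl, rfl, rfl⟩ | ⟨rfl, rfl, rfl⟩
      · exact Or.inl ⟨_, g.h1.rot _ _ _ g.hs⟩
      · exact Or.inr (Or.inr (Or.inl ⟨rfl, rfl⟩))
      · exact Or.inr (Or.inl ⟨_, g.h2.toPre.rot2 g.ht⟩)
  · rintro (h | h | ⟨rfl, rfl⟩ | ⟨rfl, rfl⟩)
    · exact g.adj1 h
    · exact g.adj2 h
    · exact ⟨w, mem_GF.2 (Or.inr (Or.inr (Or.inr (by rw [mem_rots3]; simp))))⟩
    · exact ⟨v, mem_GF.2 (Or.inr (Or.inr (Or.inl (by rw [mem_rots3]; simp))))⟩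

/-- the third corner of a triangle of the first part -/
theorem not_dart1 (g : Glue F1 F2 v w s t) {a b c : ℕ} (h : (a, b, c) ∈ F1)
    (hr : (a, b, c) ∉ rots (v, w, s)) : ¬ (a = v ∧ b = w) ∧ ¬ (a = w ∧ b = s) ∧
      ¬ (a = s ∧ b = v) := by
  rw [mem_rots3] at hr
  push Not at hr
  obtain ⟨r1, r2, r3⟩ := hr
  refine ⟨?_, ?_, ?_⟩
  · rintro ⟨rfl, rfl⟩
    exact r1 rfl rfl (g.h1.uniq _ _ _ _ h g.hs)
  · rintro ⟨rfl, rfl⟩
    exact r2 rfl rfl (g.h1.uniq _ _ _ _ h (g.h1.rot _ _ _ g.hs))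
  · rintro ⟨rfl, rfl⟩
    exact r3 rfl rfl (g.h1.uniq _ _ _ _ h (g.h1.toPre.rot2 g.hs))

theorem pre (g : Glue F1 F2 v w s t) : Pre (GF F1 F2 v w s t) where
  rot := by
    intro a b c h
    rw [mem_GF] at h ⊢
    simp only [mem_rots3] at h ⊢
    rcases h with ⟨h, hn⟩ | ⟨h, hn⟩ | h | h
    · refine Or.inl ⟨g.h1.rot _ _ _ h, ?_⟩
      tauto
    · refine Or.inr (Or.inl ⟨g.h2.rot _ _ _ h, ?_⟩)
      tauto
    · refine Or.inr (Or.inr (Or.inl ?_))
      tauto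
    · refine Or.inr (Or.inr (Or.inr ?_))
      tauto
  ne := by
    intro a b c h
    have h1 : Adj (GF F1 F2 v w s t) a b := ⟨c, h⟩
    rw [g.adj_iff] at h1
    rcases h1 with h1 | h1 | ⟨rfl, rfl⟩ | ⟨rfl, rfl⟩
    · exact g.h1.toPre.adj_ne h1
    · exact g.h2.toPre.adj_ne h1
    · exact g.st
    · exact g.st.symm
  uniq := by
    intro a b c d h h'
    have key : ∀ a b c, (a, b, c) ∈ GF F1 F2 v w s t →
        ((a, b, c) ∈ F1 ∧ ¬ (a = v ∧ b = w) ∧ ¬ (a = w ∧ b = s) ∧ ¬ (a = s ∧ b = v) ∧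
          a ∈ verts F1 ∧ b ∈ verts F1) ∨
        ((a, b, c) ∈ F2 ∧ ¬ (a = w ∧ b = v) ∧ ¬ (a = v ∧ b = t) ∧ ¬ (a = t ∧ b = w) ∧
          a ∈ verts F2 ∧ b ∈ verts F2) ∨
        (a, b, c) ∈ rots (v, t, s) ∨ (a, b, c) ∈ rots (w, s, t) := by
      intro a b c h
      rcases mem_GF.1 h with ⟨h, hn⟩ | ⟨h, hn⟩ | h | h
      · obtain ⟨n1, n2, n3⟩ := g.not_dart1 h hn
        exact Or.inl ⟨h, n1, n2, n3, mem_verts.2 ⟨_, _, h⟩, mem_verts.2 ⟨_, _, g.h1.rot _ _ _ h⟩⟩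
      · obtain ⟨n1, n2, n3⟩ := g.symm.not_dart1 h hn
        exact Or.inr (Or.inl ⟨h, n1, n2, n3, mem_verts.2 ⟨_, _, h⟩,
          mem_verts.2 ⟨_, _, g.h2.rot _ _ _ h⟩⟩)
      · exact Or.inr (Or.inr (Or.inl h))
      · exact Or.inr (Or.inr (Or.inr h))
    have hvw := g.vw
    have hws := g.ws
    have hsv := g.sv
    have hvt := g.vt
    have hwt := g.wt
    have hst := g.st
    have ht1 := g.t1
    have hs2 := g.s2
    rcases key a b c h with ⟨h, n1, n2, n3, ma, mb⟩ | ⟨h, n1, n2, n3, ma, mb⟩ | h | h <;>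
    rcases key a b d h' with ⟨h', n1', n2', n3', ma', mb'⟩ | ⟨h', n1', n2', n3', ma', mb'⟩ | h' | h'
    · exact g.h1.uniq _ _ _ _ h h'
    · exfalso
      have hne := g.h1.ne _ _ _ h
      rcases g.hi a ma ma' with rfl | rfl <;> rcases g.hi b mb mb' with rfl | rfl
      · exact hne rfl
      · exact n1 ⟨rfl, rfl⟩
      · exact n1' ⟨rfl, rfl⟩
      · exact hne rfl
    · exfalso
      rcases mem_rots3.1 h' with ⟨rfl, rfl, rfl⟩ | ⟨rfl, rfl, rfl⟩ | ⟨rfl, rfl, rfl⟩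
      · exact ht1 mb
      · exact ht1 ma
      · exact n3 ⟨rfl, rfl⟩
    · exfalso
      rcases mem_rots3.1 h' with ⟨rfl, rfl, rfl⟩ | ⟨rfl, rfl, rfl⟩ | ⟨rfl, rfl, rfl⟩
      · exact n2 ⟨rfl, rfl⟩
      · exact ht1 mb
      · exact ht1 ma
    · exfalso
      have hne := g.h1.ne _ _ _ h'
      rcases g.hi a ma' ma with rfl | rfl <;> rcases g.hi b mb' mb with rfl | rfl
      · exact hne rfl
      · exact n1' ⟨rfl, rfl⟩
      · exact n1 ⟨rfl, rfl⟩
      · exact hne rfl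
    · exact g.h2.uniq _ _ _ _ h h'
    · exfalso
      rcases mem_rots3.1 h' with ⟨rfl, rfl, rfl⟩ | ⟨rfl, rfl, rfl⟩ | ⟨rfl, rfl, rfl⟩
      · exact n2 ⟨rfl, rfl⟩
      · exact hs2 mb
      · exact hs2 ma
    · exfalso
      rcases mem_rots3.1 h' with ⟨rfl, rfl, rfl⟩ | ⟨rfl, rfl, rfl⟩ | ⟨rfl, rfl, rfl⟩
      · exact hs2 mb
      · exact hs2 ma
      · exact n3 ⟨rfl, rfl⟩
    · exfalso
      rcases mem_rots3.1 h with ⟨rfl, rfl, rfl⟩ | ⟨rfl, rfl, rfl⟩ | ⟨rfl, rfl, rfl⟩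
      · exact ht1 mb'
      · exact ht1 ma'
      · exact n3' ⟨rfl, rfl⟩
    · exfalso
      rcases mem_rots3.1 h with ⟨rfl, rfl, rfl⟩ | ⟨rfl, rfl, rfl⟩ | ⟨rfl, rfl, rfl⟩
      · exact n2' ⟨rfl, rfl⟩
      · exact hs2 mb'
      · exact hs2 ma'
    · exact rots_uniq hvt hst.symm hsv h h'
    · exact (rots_cross hvw hws hsv hvt hwt hst h h').elim
    · exfalso
      rcases mem_rots3.1 h with ⟨rfl, rfl, rfl⟩ | ⟨rfl, rfl, rfl⟩ | ⟨rfl, rfl, rfl⟩
      · exact n2' ⟨rfl, rfl⟩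
      · exact ht1 mb'
      · exact ht1 ma'
    · exfalso
      rcases mem_rots3.1 h with ⟨rfl, rfl, rfl⟩ | ⟨rfl, rfl, rfl⟩ | ⟨rfl, rfl, rfl⟩
      · exact hs2 mb'
      · exact hs2 ma'
      · exact n3' ⟨rfl, rfl⟩
    · exact (rots_cross hvw hws hsv hvt hwt hst h' h).elim
    · exact rots_uniq hws hst hwt.symm h h'
  opp := by
    intro a b c h
    have h1 : Adj (GF F1 F2 v w s t) a b := ⟨c, h⟩
    rw [g.adj_iff] at h1
    have h2 : Adj (GF F1 F2 v w s t) b a := by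
      rw [g.adj_iff]
      rcases h1 with h1 | h1 | ⟨rfl, rfl⟩ | ⟨rfl, rfl⟩
      · exact Or.inl (g.h1.toPre.adj_symm h1)
      · exact Or.inr (Or.inl (g.h2.toPre.adj_symm h1))
      · exact Or.inr (Or.inr (Or.inr ⟨rfl, rfl⟩))
      · exact Or.inr (Or.inr (Or.inl ⟨rfl, rfl⟩))
    exact h2

/-- around a corner of the removed triangle -/
theorem around1 (g : Glue F1 F2 v w s t) {x y0 z0 y : ℕ} (hr : (x, y0, z0) ∈ rots (v, w, s))
    (hy : Adj F1 x y) :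
    Relation.ReflTransGen (fun p q => (x, p, q) ∈ GF F1 F2 v w s t) z0 y ∧
      Relation.ReflTransGen (fun p q => (x, p, q) ∈ GF F1 F2 v w s t) y y0 := by
  have hF : (x, y0, z0) ∈ F1 := by
    rcases mem_rots3.1 hr with ⟨rfl, rfl, rfl⟩ | ⟨rfl, rfl, rfl⟩ | ⟨rfl, rfl, rfl⟩
    · exact g.hs
    · exact g.h1.rot _ _ _ g.hs
    · exact g.h1.toPre.rot2 g.hs
  have a0 : Adj F1 x y0 := ⟨z0, hF⟩
  have az : Adj F1 x z0 := g.h1.toPre.adj_symm ⟨y0, g.h1.toPre.rot2 hF⟩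
  have hstep : ∀ p q, ((x, p, q) ∈ F1 ∧ ¬ (p = y0 ∧ q = z0)) → (x, p, q) ∈ GF F1 F2 v w s t := by
    rintro p q ⟨h1, h2⟩
    refine mem_GF.2 (Or.inl ⟨h1, fun h3 => h2 ?_⟩)
    have hvw := g.vw
    have hws := g.ws
    have hsv := g.sv
    rw [mem_rots3] at hr h3
    omega
  refine ⟨?_, ?_⟩
  · exact rmono (cut_from (y0 := y0) (g.h1.link x z0 y az hy)) hstep
  · exact rmono (cut_to (z0 := z0) (g.h1.link x y y0 hy a0)) hstep

/-- the links of the vertices of the first part other than `w` -/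
theorem link1 (g : Glue F1 F2 v w s t) {x : ℕ} (hx : x ∈ verts F1) (hxw : x ≠ w) {y z : ℕ}
    (hy : Adj (GF F1 F2 v w s t) x y) (hz : Adj (GF F1 F2 v w s t) x z) :
    Relation.ReflTransGen (fun p q => (x, p, q) ∈ GF F1 F2 v w s t) y z := by
  -- it is enough to go around a base point
  suffices hb : ∃ c, ∀ y, Adj (GF F1 F2 v w s t) x y →
      Relation.ReflTransGen (fun p q => (x, p, q) ∈ GF F1 F2 v w s t) c y ∧
      Relation.ReflTransGen (fun p q => (x, p, q) ∈ GF F1 F2 v w s t) y c by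
    obtain ⟨c, hc⟩ := hb
    exact (hc y hy).2.trans (hc z hz).1
  by_cases hxv : x = v
  · subst hxv
    -- around v
    have e1 : (x, w, s) ∈ rots (x, w, s) := by rw [mem_rots3]; simp
    have e2 : (x, t, w) ∈ rots (w, x, t) := by rw [mem_rots3]; simp
    have e3 : (x, t, s) ∈ GF F1 F2 x w s t :=
      mem_GF.2 (Or.inr (Or.inr (Or.inl (by rw [mem_rots3]; simp))))
    have hr2 : ∀ y, Adj F2 x y → Relation.ReflTransGen (fun p q => (x, p, q) ∈ GF F1 F2 x w s t) w y ∧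
        Relation.ReflTransGen (fun p q => (x, p, q) ∈ GF F1 F2 x w s t) y t := by
      intro y hy
      have := g.symm.around1 e2 hy
      rw [GF_symm] at this
      exact this
    have hwt : Relation.ReflTransGen (fun p q => (x, p, q) ∈ GF F1 F2 x w s t) w t :=
      (hr2 t ⟨w, g.h2.rot _ _ _ g.ht⟩).1
    have hsw : Relation.ReflTransGen (fun p q => (x, p, q) ∈ GF F1 F2 x w s t) s w :=
      (g.around1 e1 ⟨s, g.hs⟩).1
    refine ⟨w, fun y hy => ?_⟩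
    rcases g.adj_iff.1 hy with h | h | ⟨h, -⟩ | ⟨h, -⟩
    · obtain ⟨p1, p2⟩ := g.around1 e1 h
      exact ⟨(hwt.tail e3).trans p1, p2⟩
    · obtain ⟨p1, p2⟩ := hr2 y h
      exact ⟨p1, (p2.tail e3).trans hsw⟩
    · exact absurd h.symm g.sv
    · exact absurd h g.vt
  · by_cases hxs : x = s
    · subst hxs
      have e1 : (x, v, w) ∈ rots (v, w, x) := by rw [mem_rots3]; simp
      have e2 : (x, v, t) ∈ GF F1 F2 v w x t :=
        mem_GF.2 (Or.inr (Or.inr (Or.inl (by rw [mem_rots3]; simp))))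
      have e3 : (x, t, w) ∈ GF F1 F2 v w x t :=
        mem_GF.2 (Or.inr (Or.inr (Or.inr (by rw [mem_rots3]; simp))))
      refine ⟨t, fun y hy => ?_⟩
      rcases g.adj_iff.1 hy with h | h | ⟨-, h⟩ | ⟨h, -⟩
      · obtain ⟨p1, p2⟩ := g.around1 e1 h
        exact ⟨p1.head e3, p2.tail e2⟩
      · exact absurd (Pre.mem_left h) g.s2
      · subst h
        exact ⟨Relation.ReflTransGen.refl, Relation.ReflTransGen.refl⟩
      · exact absurd h g.st
    · obtain ⟨c, hc⟩ := mem_verts'.1 hx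
      have hstep : ∀ p q, (x, p, q) ∈ F1 → (x, p, q) ∈ GF F1 F2 v w s t := by
        intro p q h
        refine mem_GF.2 (Or.inl ⟨h, fun h3 => ?_⟩)
        rw [mem_rots3] at h3
        omega
      refine ⟨c, fun y hy => ?_⟩
      rcases g.adj_iff.1 hy with h | h | ⟨h, -⟩ | ⟨h, -⟩
      · exact ⟨rmono (g.h1.link x c y hc h) hstep, rmono (g.h1.link x y c h hc) hstep⟩
      · rcases g.hi x hx (Pre.mem_left h) with h | h
        · exact absurd h hxv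
        · exact absurd h hxw
      · exact absurd h hxs
      · exact absurd (h ▸ hx) g.t1

theorem verts_GF (g : Glue F1 F2 v w s t) : verts (GF F1 F2 v w s t) = verts F1 ∪ verts F2 := by
  ext x
  rw [Finset.mem_union, mem_verts', mem_verts', mem_verts']
  constructor
  · rintro ⟨b, hb⟩
    rcases g.adj_iff.1 hb with h | h | ⟨rfl, rfl⟩ | ⟨rfl, rfl⟩
    · exact Or.inl ⟨b, h⟩
    · exact Or.inr ⟨b, h⟩
    · exact Or.inl (mem_verts'.1 g.s1)
    · exact Or.inr (mem_verts'.1 g.symm.s1)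
  · rintro (⟨b, hb⟩ | ⟨b, hb⟩)
    · exact ⟨b, g.adj1 hb⟩
    · exact ⟨b, g.adj2 hb⟩

theorem card_rots {x y z : ℕ} (h1 : x ≠ y) : (rots (x, y, z)).card = 3 ∨ y = z ∨ z = x := by
  by_cases h2 : y = z
  · exact Or.inr (Or.inl h2)
  by_cases h3 : z = x
  · exact Or.inr (Or.inr h3)
  left
  unfold rots
  rw [Finset.card_insert_of_notMem, Finset.card_insert_of_notMem, Finset.card_singleton]
  · simp only [Finset.mem_singleton, Prod.mk.injEq]
    omega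
  · simp only [Finset.mem_insert, Finset.mem_singleton, Prod.mk.injEq]
    omega

theorem card_rots' {x y z : ℕ} (h1 : x ≠ y) (h2 : y ≠ z) (h3 : z ≠ x) :
    (rots (x, y, z)).card = 3 := by
  rcases card_rots (z := z) h1 with h | h | h
  · exact h
  · exact absurd h h2
  · exact absurd h h3

theorem card_GF (g : Glue F1 F2 v w s t) : (GF F1 F2 v w s t).card = F1.card + F2.card := by
  have hvw := g.vw
  have hws := g.ws
  have hsv := g.sv
  have hvt := g.vt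
  have hwt := g.wt
  have hst := g.st
  have r1 : rots (v, w, s) ⊆ F1 := by
    rintro ⟨a, b, c⟩ h
    rcases mem_rots3.1 h with ⟨rfl, rfl, rfl⟩ | ⟨rfl, rfl, rfl⟩ | ⟨rfl, rfl, rfl⟩
    · exact g.hs
    · exact g.h1.rot _ _ _ g.hs
    · exact g.h1.toPre.rot2 g.hs
  have r2 : rots (w, v, t) ⊆ F2 := by
    rintro ⟨a, b, c⟩ h
    rcases mem_rots3.1 h with ⟨rfl, rfl, rfl⟩ | ⟨rfl, rfl, rfl⟩ | ⟨rfl, rfl, rfl⟩
    · exact g.ht
    · exact g.h2.rot _ _ _ g.ht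
    · exact g.h2.toPre.rot2 g.ht
  have c1 := Finset.card_sdiff_add_card_eq_card r1
  have c2 := Finset.card_sdiff_add_card_eq_card r2
  rw [card_rots' hvw hws hsv] at c1
  rw [card_rots' hvw.symm hvt hwt.symm] at c2
  have key : ∀ {a b c : ℕ} {F : Finset Tri}, Pre F → (a, b, c) ∈ F →
      a ∈ verts F ∧ b ∈ verts F ∧ c ∈ verts F := by
    intro a b c F hF h
    exact ⟨mem_verts.2 ⟨_, _, h⟩, mem_verts.2 ⟨_, _, hF.rot _ _ _ h⟩,
      mem_verts.2 ⟨_, _, hF.rot2 h⟩⟩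
  have d1 : Disjoint (F1 \ rots (v, w, s)) (F2 \ rots (w, v, t)) := by
    rw [Finset.disjoint_left]
    rintro ⟨a, b, c⟩ h1 h2
    rw [Finset.mem_sdiff] at h1 h2
    obtain ⟨k1, k2, k3⟩ := key g.h1.toPre h1.1
    obtain ⟨l1, l2, l3⟩ := key g.h2.toPre h2.1
    have n := g.h1.toPre.nd h1.1
    have m1 := g.hi a k1 l1
    have m2 := g.hi b k2 l2
    have m3 := g.hi c k3 l3
    omega
  have hs2 := g.s2
  have ht1 := g.t1
  have d2 : Disjoint (F1 \ rots (v, w, s) ∪ F2 \ rots (w, v, t)) (rots (v, t, s)) := by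
    rw [Finset.disjoint_left]
    rintro ⟨a, b, c⟩ h1 h2
    rw [Finset.mem_union, Finset.mem_sdiff, Finset.mem_sdiff] at h1
    rcases h1 with ⟨h1, -⟩ | ⟨h1, -⟩
    · obtain ⟨k1, k2, k3⟩ := key g.h1.toPre h1
      rcases mem_rots3.1 h2 with ⟨rfl, rfl, rfl⟩ | ⟨rfl, rfl, rfl⟩ | ⟨rfl, rfl, rfl⟩
      · exact ht1 k2
      · exact ht1 k1
      · exact ht1 k3
    · obtain ⟨k1, k2, k3⟩ := key g.h2.toPre h1
      rcases mem_rots3.1 h2 with ⟨rfl, rfl, rfl⟩ | ⟨rfl, rfl, rfl⟩ | ⟨rfl, rfl, rfl⟩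
      · exact hs2 k3
      · exact hs2 k2
      · exact hs2 k1
  have d3 : Disjoint (F1 \ rots (v, w, s) ∪ F2 \ rots (w, v, t) ∪ rots (v, t, s))
      (rots (w, s, t)) := by
    rw [Finset.disjoint_left]
    rintro ⟨a, b, c⟩ h1 h2
    rw [Finset.mem_union, Finset.mem_union, Finset.mem_sdiff, Finset.mem_sdiff] at h1
    rcases h1 with (⟨h1, -⟩ | ⟨h1, -⟩) | h1
    · obtain ⟨k1, k2, k3⟩ := key g.h1.toPre h1
      rcases mem_rots3.1 h2 with ⟨rfl, rfl, rfl⟩ | ⟨rfl, rfl, rfl⟩ | ⟨rfl, rfl, rfl⟩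
      · exact ht1 k3
      · exact ht1 k2
      · exact ht1 k1
    · obtain ⟨k1, k2, k3⟩ := key g.h2.toPre h1
      rcases mem_rots3.1 h2 with ⟨rfl, rfl, rfl⟩ | ⟨rfl, rfl, rfl⟩ | ⟨rfl, rfl, rfl⟩
      · exact hs2 k2
      · exact hs2 k1
      · exact hs2 k3
    · exact rots_cross hvw hws hsv hvt hwt hst h1 h2
  unfold GF
  rw [Finset.card_union_of_disjoint d3, Finset.card_union_of_disjoint d2,
    Finset.card_union_of_disjoint d1, card_rots' hvt hst.symm hsv,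
    card_rots' hws hst hwt.symm]
  omega

theorem sph (g : Glue F1 F2 v w s t) : Sph (GF F1 F2 v w s t) where
  toPre := g.pre
  link := by
    intro x y z hy hz
    by_cases hx : x ∈ verts F1 ∧ x ≠ w
    · exact g.link1 hx.1 hx.2 hy hz
    · have hx2 : x ∈ verts F2 ∧ x ≠ v := by
        have h1 : x ∈ verts (GF F1 F2 v w s t) := Pre.mem_left hy
        rw [g.verts_GF, Finset.mem_union] at h1
        refine ⟨?_, ?_⟩
        · rcases h1 with h1 | h1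
          · have : x = w := by
              by_contra h2
              exact hx ⟨h1, h2⟩
            rw [this]
            exact mem_verts.2 ⟨_, _, g.ht⟩
          · exact h1
        · rintro rfl
          exact hx ⟨g.v1, g.vw⟩
      have := g.symm.link1 hx2.1 hx2.2 (y := y) (z := z) (by rw [GF_symm]; exact hy)
        (by rw [GF_symm]; exact hz)
      rw [GF_symm] at this
      exact this
  conn := by
    have key : ∀ a, a ∈ verts (GF F1 F2 v w s t) →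
        Relation.ReflTransGen (Adj (GF F1 F2 v w s t)) a v ∧
        Relation.ReflTransGen (Adj (GF F1 F2 v w s t)) v a := by
      intro a ha
      rw [g.verts_GF, Finset.mem_union] at ha
      rcases ha with ha | ha
      · exact ⟨rmono (g.h1.conn a v ha g.v1) fun _ _ h => g.adj1 h,
          rmono (g.h1.conn v a g.v1 ha) fun _ _ h => g.adj1 h⟩
      · have v2 : v ∈ verts F2 := mem_verts.2 ⟨_, _, g.h2.rot _ _ _ g.ht⟩
        exact ⟨rmono (g.h2.conn a v ha v2) fun _ _ h => g.adj2 h,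
          rmono (g.h2.conn v a v2 ha) fun _ _ h => g.adj2 h⟩
    intro a b ha hb
    exact (key a ha).1.trans (key b hb).2
  euler := by
    have e1 := g.h1.euler
    have e2 := g.h2.euler
    have e3 : (verts F1 ∩ verts F2) = {v, w} := by
      ext x
      simp only [Finset.mem_inter, Finset.mem_insert, Finset.mem_singleton]
      constructor
      · rintro ⟨h1, h2⟩
        exact g.hi x h1 h2
      · rintro (rfl | rfl)
        · exact ⟨g.v1, mem_verts.2 ⟨_, _, g.h2.rot _ _ _ g.ht⟩⟩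
        · exact ⟨g.w1, mem_verts.2 ⟨_, _, g.ht⟩⟩
    have e4 := Finset.card_union_add_card_inter (verts F1) (verts F2)
    rw [e3, Finset.card_pair g.vw] at e4
    rw [g.verts_GF, g.card_GF]
    omega

end Glue

theorem sm1 : SM1Stmt := by
  intro F1 F2 v w h1 h2 hi ⟨s, hs⟩ hvw
  obtain ⟨t, ht⟩ := h2.toPre.adj_symm hvw
  have g : Glue F1 F2 v w s t := ⟨h1, h2, fun x hx hx' => by
    have : x ∈ verts F1 ∩ verts F2 := Finset.mem_inter.2 ⟨hx, hx'⟩
    rw [hi] at this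
    simpa using this, hs, ht⟩
  exact ⟨GF F1 F2 v w s t, g.sph, g.verts_GF, fun a b h => g.adj1 h, fun a b h => g.adj2 h⟩

end Pool.Agent.H80.RCQ.SM1
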