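import Pool.Agent.H6.RCQ.Stmts5

set_option autoImplicit false

namespace Pool.Agent.H80.RCQ.SM5

open Pool.Agent.H6.RCQ Pool.Agent.H39.RC Pool.Agent.H3.RCR
open Classical

/-- the facts about a spanning subgraph of a sphere -/
theorem span_facts {V : Type} [Fintype V] {F : Finset Tri} {ι : V → ℕ}
    (hinj : Function.Injective ι) (hmem : ∀ v, ι v ∈ verts F)
    (hall : ∀ x ∈ verts F, ∃ v, ι v = x) : (verts F).card = Fintype.card V := by
  have h : verts F = Finset.univ.image ι := by
    ext x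
    simp only [Finset.mem_image, Finset.mem_univ, true_and]
    exact ⟨fun hx => hall x hx, fun ⟨v, hv⟩ => hv ▸ hmem v⟩
  rw [h, Finset.card_image_of_injective _ hinj, Finset.card_univ]

/-- the darts of the graph as elements of `F` -/
theorem darts_le {V : Type} [Fintype V] {G : SimpleGraph V} {F : Finset Tri} {ι : V → ℕ}
    (hinj : Function.Injective ι) (hadj : ∀ u v, G.Adj u v → Adj F (ι u) (ι v)) :
    ∃ f : V × V → Tri, Function.Injective f ∧ ∀ e, G.Adj e.1 e.2 → f e ∈ F ∧
      (f e).1 = ι e.1 ∧ (f e).2.1 = ι e.2 := by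
  refine ⟨fun e => (ι e.1, ι e.2, if h : G.Adj e.1 e.2 then (hadj _ _ h).choose else 0), ?_, ?_⟩
  · intro e e' h
    simp only [Prod.mk.injEq] at h
    exact Prod.ext (hinj h.1) (hinj h.2.1)
  · intro e he
    refine ⟨?_, rfl, rfl⟩
    simp only [dif_pos he]
    exact (hadj _ _ he).choose_spec

theorem sm5 : SM5Stmt := by
  intro V _ G hV ⟨F, hF, ι, hinj, hmem, hall, hadj⟩
  have h1 := span_facts hinj hmem hall
  have h2 := hF.euler
  rw [h1] at h2
  obtain ⟨f, hf, hf'⟩ := darts_le (F := F) hinj hadj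
  have h3 : (Finset.univ.filter (fun e : V × V => G.Adj e.1 e.2)).card ≤ F.card :=
    Finset.card_le_card_of_injOn f (fun e he => (hf' e (by simpa using he)).1) hf.injOn
  omega

end Pool.Agent.H80.RCQ.SM5
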