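import Pool.Agent.H80.RCQ.SM5

set_option autoImplicit false

namespace Pool.Agent.H80.RCQ.SM6

open Pool.Agent.H6.RCQ Pool.Agent.H39.RC Pool.Agent.H3.RCR
open Classical

theorem k33_darts : (Finset.univ.filter (fun e : (Fin 3 ⊕ Fin 3) × (Fin 3 ⊕ Fin 3) =>
    e.1.isLeft ≠ e.2.isLeft)).card = 18 := by decide

theorem k33_adj (u v : Fin 3 ⊕ Fin 3) : (completeBipartiteGraph (Fin 3) (Fin 3)).Adj u v ↔
    u.isLeft ≠ v.isLeft := by
  rcases u with u | u <;> rcases v with v | v <;> simp [completeBipartiteGraph]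

theorem sm6 : SM6Stmt := by
  rintro ⟨F, hF, ι, hinj, hmem, hall, hadj⟩
  have h1 := SM5.span_facts hinj hmem hall
  have h2 := hF.euler
  rw [h1] at h2
  have hcard : Fintype.card (Fin 3 ⊕ Fin 3) = 6 := by simp
  rw [hcard] at h2
  have h24 : F.card = 24 := by omega
  obtain ⟨f, hf, hf'⟩ := SM5.darts_le (F := F) hinj hadj
  -- the side of a vertex
  have hside : ∃ sd : ℕ → Bool, ∀ v, sd (ι v) = v.isLeft := by
    refine ⟨fun x => if h : ∃ v, ι v = x then h.choose.isLeft else true, fun v => ?_⟩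
    have h : ∃ w, ι w = ι v := ⟨v, rfl⟩
    simp only [dif_pos h]
    rw [hinj h.choose_spec]
  obtain ⟨sd, hsd⟩ := hside
  set Rd := F.filter (fun t => sd t.1 = sd t.2.1) with hRd
  set Nr := F.filter (fun t => ¬ sd t.1 = sd t.2.1) with hNr
  have h3 : Rd.card + Nr.card = F.card := Finset.card_filter_add_card_filter_not _
  have h4 : 18 ≤ Nr.card := by
    rw [← k33_darts]
    refine Finset.card_le_card_of_injOn f (fun e he => ?_) hf.injOn
    simp only [Finset.coe_filter, Finset.mem_univ, true_and, Set.mem_ofPred_eq] at he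
    obtain ⟨h5, h6, h7⟩ := hf' e ((k33_adj _ _).2 he)
    simp only [hNr, Finset.coe_filter, Set.mem_ofPred_eq]
    refine ⟨h5, ?_⟩
    rw [h6, h7, hsd, hsd]
    exact he
  have h5 : F ⊆ Rd ∪ (Rd.image (fun t => (t.2.1, t.2.2, t.1))) ∪
      (Rd.image (fun t => (t.2.2, t.1, t.2.1))) := by
    rintro ⟨a, b, c⟩ ht
    have r1 := hF.rot _ _ _ ht
    have r2 := hF.rot _ _ _ r1
    simp only [hRd, Finset.mem_union, Finset.mem_image, Finset.mem_filter, Prod.mk.injEq,
      Prod.exists]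
    by_cases hab : sd a = sd b
    · exact Or.inl (Or.inl ⟨ht, hab⟩)
    · by_cases hbc : sd b = sd c
      · exact Or.inr ⟨b, c, a, ⟨r1, hbc⟩, rfl, rfl, rfl⟩
      · refine Or.inl (Or.inr ⟨c, a, b, ⟨r2, ?_⟩, rfl, rfl, rfl⟩)
        revert hab hbc
        cases sd a <;> cases sd b <;> cases sd c <;> simp
  have h6 := Finset.card_le_card h5
  have h7 := Finset.card_union_le (Rd ∪ (Rd.image (fun t => (t.2.1, t.2.2, t.1))))
    (Rd.image (fun t => (t.2.2, t.1, t.2.1)))
  have h8 := Finset.card_union_le Rd (Rd.image (fun t => (t.2.1, t.2.2, t.1)))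
  have h9 := Finset.card_image_le (s := Rd) (f := fun t => (t.2.1, t.2.2, t.1))
  have h10 := Finset.card_image_le (s := Rd) (f := fun t => (t.2.2, t.1, t.2.1))
  omega

end Pool.Agent.H80.RCQ.SM6
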