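import Pool.Agent.H80.RCQ.TP3

set_option autoImplicit false
set_option linter.unusedVariables false

namespace Pool.Agent.H80.RCQ.SM9

open Pool.Agent.H6.RCQ Pool.Agent.H39.RC
open Classical

theorem minor_trans {V1 V2 V3 : Type} {G1 : SimpleGraph V1} {G2 : SimpleGraph V2}
    {G3 : SimpleGraph V3} (h12 : HasMinor G1 G2) (h23 : HasMinor G2 G3) : HasMinor G1 G3 := by
  obtain ⟨B, hBc, hBd, hBa⟩ := h12
  obtain ⟨D, hDc, hDd, hDa⟩ := h23
  refine ⟨fun w => {z | ∃ v ∈ D w, z ∈ B v}, ?_, ?_, ?_⟩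
  · intro w
    obtain ⟨⟨v0, hv0⟩⟩ := (hDc w).nonempty
    obtain ⟨⟨b0, hb0⟩⟩ := (hBc v0).nonempty
    have key : ∀ (u v : D w) (p : (G2.induce (D w)).Walk u v) (T : Set V1), Con G1 T →
        T ⊆ {z | ∃ v ∈ D w, z ∈ B v} → B u.1 ⊆ T →
        ∃ T' : Set V1, Con G1 T' ∧ T' ⊆ {z | ∃ v ∈ D w, z ∈ B v} ∧ T ⊆ T' ∧ B v.1 ⊆ T' := by
      intro u v p
      induction p with
      | @nil u =>
        intro T hT hTs hB
        exact ⟨T, hT, hTs, subset_rfl, hB⟩
      | @cons u c v huc p ih =>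
        intro T hT hTs hB
        obtain ⟨x, hx, y, hy, hxy⟩ := hBa u.1 c.1 huc
        obtain ⟨T', h1, h2, h3, h4⟩ := ih (T ∪ B c.1) (hT.union_adj (hBc c.1) (hB hx) hy hxy)
          (Set.union_subset hTs (fun z hz => ⟨c.1, c.2, hz⟩)) Set.subset_union_right
        exact ⟨T', h1, h2, Set.subset_union_left.trans h3, h4⟩
    refine TP3.con_of_base (b0 := b0) ⟨v0, hv0, hb0⟩ ?_
    rintro a ⟨v, hv, ha⟩
    obtain ⟨p⟩ := (hDc w).preconnected ⟨v0, hv0⟩ ⟨v, hv⟩
    obtain ⟨T', h1, h2, h3, h4⟩ := key _ _ p (B v0) (hBc v0) (fun z hz => ⟨v0, hv0, hz⟩) subset_rfl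
    exact ⟨T', h2, h1, h4 ha, h3 hb0⟩
  · intro w w' hww
    rw [Set.disjoint_left]
    rintro z ⟨v, hv, hz⟩ ⟨v', hv', hz'⟩
    by_cases h : v = v'
    · rw [← h] at hv'
      exact Set.disjoint_left.1 (hDd w w' hww) hv hv'
    · exact Set.disjoint_left.1 (hBd v v' h) hz hz'
  · intro w w' hww
    obtain ⟨x, hx, y, hy, hxy⟩ := hDa w w' hww
    obtain ⟨a, ha, b, hb, hab⟩ := hBa x y hxy
    exact ⟨a, ⟨x, hx, ha⟩, b, ⟨y, hy, hb⟩, hab⟩

theorem con_image {V W : Type} {G : SimpleGraph V} {H : SimpleGraph W} {ι : V → W}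
    (h : ∀ u v, G.Adj u v → H.Adj (ι u) (ι v)) {P : Set V} (hP : Con G P) : Con H (ι '' P) := by
  let f : G.induce P →g H.induce (ι '' P) :=
    { toFun := fun x => ⟨ι x.1, x.1, x.2, rfl⟩
      map_rel' := fun {a b} hab => h _ _ hab }
  refine SimpleGraph.Connected.map f ?_ hP
  rintro ⟨y, x, hx, rfl⟩
  exact ⟨⟨x, hx⟩, rfl⟩

theorem k5_darts : (Finset.univ.filter (fun e : Fin 5 × Fin 5 =>
    (⊤ : SimpleGraph (Fin 5)).Adj e.1 e.2)).card = 20 := by
  have : (Finset.univ.filter (fun e : Fin 5 × Fin 5 => e.1 ≠ e.2)).card = 20 := by decide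
  simpa using this

theorem sm9 (h4 : SM4Stmt) (h5 : SM5Stmt) (h6 : SM6Stmt) (h7 : SM7Stmt) (h8 : SM8Stmt) :
    SM9Stmt := by
  intro V G F hfin hF hM
  refine ⟨?_, ?_, ?_, ?_⟩
  · intro h
    exact h6 (h4 _ _ F inferInstance (by simp) hF (minor_trans hM h))
  · intro h
    have h1 := h4 _ _ F inferInstance (by simp) hF (minor_trans hM h)
    have h2 := h5 _ _ (by simp) h1
    have h3 := k5_darts
    simp only [Fintype.card_fin] at h2
    have h9 : (Finset.univ.filter (fun e : Fin 5 × Fin 5 =>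
      (⊤ : SimpleGraph (Fin 5)).Adj e.1 e.2)).card + 12 ≤ 30 := by
      refine le_trans (le_of_eq ?_) h2
      congr 2
      ext x
      simp
    omega
  · intro k B hk hB hd
    let G' : SimpleGraph (Fin k) :=
      { Adj := fun i j => i ≠ j ∧ ∃ a ∈ B i, ∃ b ∈ B j, G.Adj a b
        symm := ⟨fun i j h => by
          obtain ⟨h1, a, ha, b, hb, hab⟩ := h
          exact ⟨h1.symm, b, hb, a, ha, hab.symm⟩⟩
        loopless := ⟨fun i h => h.1 rfl⟩ }
    have hG' : HasMinor G G' := ⟨B, hB, hd, fun i j hij => hij.2⟩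
    have h1 := h4 _ _ F inferInstance (by simpa using hk) hF (minor_trans hM hG')
    have h2 := h5 _ _ (by simpa using hk) h1
    simp only [Fintype.card_fin] at h2
    refine le_trans (le_of_eq ?_) h2
    congr 2
    ext x
    simp [G']
  · intro x
    by_cases hc : 3 ≤ Nat.card V
    · obtain ⟨F', hF', ι, hinj, hmem, hall, hadj⟩ := h4 V G F hfin hc hF hM
      obtain ⟨n, l, hn, hl, hlF, hcov⟩ := h7 F' (ι x) hF' (hmem x)
      refine ⟨fun a => if h : ∃ i < n, l i = ι a then h.choose else 0, ?_, ?_⟩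
      · intro a b ha hb hab
        have h1 := hcov _ (hadj _ _ ha)
        have h2 := hcov _ (hadj _ _ hb)
        simp only [dif_pos h1, dif_pos h2] at hab
        have e1 := h1.choose_spec.2
        have e2 := h2.choose_spec.2
        rw [hab] at e1
        exact hinj (e1.symm.trans e2)
      · intro a b c d ha hb hc hd hab hbc hcd
        have h1 := hcov _ (hadj _ _ ha)
        have h2 := hcov _ (hadj _ _ hb)
        have h3 := hcov _ (hadj _ _ hc)
        have h9 := hcov _ (hadj _ _ hd)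
        simp only [dif_pos h1, dif_pos h2, dif_pos h3, dif_pos h9] at hab hbc hcd
        have key := h8 F' (ι x) n l hF' hl hlF _ _ _ _ hab hbc hcd h9.choose_spec.1
        rw [h1.choose_spec.2, h2.choose_spec.2, h3.choose_spec.2, h9.choose_spec.2] at key
        have hhom : ∀ u v, G.Adj u v → (FG F').Adj (ι u) (ι v) :=
          fun u v h => ⟨fun e => h.ne (hinj e), Or.inl (hadj u v h)⟩
        intro P Q hP hQ hxP hxQ haP hcP hbQ hdQ
        obtain ⟨z, ⟨p, hp, rfl⟩, ⟨q, hq, hpq⟩⟩ := key (ι '' P) (ι '' Q) (con_image hhom hP)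
          (con_image hhom hQ) (fun ⟨y, hy, e⟩ => hxP (hinj e ▸ hy))
          (fun ⟨y, hy, e⟩ => hxQ (hinj e ▸ hy)) ⟨a, haP, rfl⟩ ⟨c, hcP, rfl⟩ ⟨b, hbQ, rfl⟩
          ⟨d, hdQ, rfl⟩
        exact ⟨p, hp, hinj hpq ▸ hq⟩
    · obtain ⟨m, ⟨e⟩⟩ := Finite.exists_equiv_fin V
      refine ⟨fun a => (e a).val, fun a b _ _ h => e.injective (Fin.ext h), ?_⟩
      intro a b c d ha hb hc' hd hab hbc hcd
      exfalso
      apply hc
      change (e a).val < (e b).val at hab
      change (e b).val < (e c).val at hbc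
      change (e c).val < (e d).val at hcd
      have h1 : Nat.card V = m := by
        rw [Nat.card_congr e]; simp
      rw [h1]
      have := (e d).isLt
      omega

end Pool.Agent.H80.RCQ.SM9
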