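import Pool.Agent.H6.RCQ.Stmts5

set_option autoImplicit false
set_option linter.unusedVariables false

namespace Pool.Agent.H80.RCQ.TP3

open Pool.Agent.H6.RCQ Pool.Agent.H39.RC
open Classical

theorem reach_mono {W : Type} {H : SimpleGraph W} {S T : Set W} (h : S ⊆ T) {a b : W} (ha : a ∈ S)
    (hb : b ∈ S) (hr : (H.induce S).Reachable ⟨a, ha⟩ ⟨b, hb⟩) :
    (H.induce T).Reachable ⟨a, h ha⟩ ⟨b, h hb⟩ :=
  hr.map (SimpleGraph.induceHomOfLE H h).toHom

theorem con_of_base {W : Type} {H : SimpleGraph W} {S : Set W} {b0 : W} (h0 : b0 ∈ S)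
    (h : ∀ a ∈ S, ∃ T ⊆ S, Con H T ∧ a ∈ T ∧ b0 ∈ T) : Con H S := by
  have key : ∀ a : S, (H.induce S).Reachable ⟨b0, h0⟩ a := by
    rintro ⟨a, ha⟩
    obtain ⟨T, hTS, hT, haT, h0T⟩ := h a ha
    exact reach_mono hTS h0T haT (hT.preconnected _ _)
  have : Nonempty S := ⟨⟨b0, h0⟩⟩
  exact ⟨fun a b => (key a).symm.trans (key b)⟩

/-- the part of `C` which can be reached from `A` without entering `D` -/
def Pt {W : Type} (H : SimpleGraph W) (A D C : Set W) : Set W :=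
  {z | ∃ T : Set W, T ⊆ C ∧ Disjoint T D ∧ Con H T ∧ z ∈ T ∧ (T ∩ A).Nonempty}

theorem exists_adj {W : Type} {H : SimpleGraph W} {A D C : Set W} (hAD : Disjoint A D)
    (hC : Con H C) (h1 : (C ∩ A).Nonempty) (h2 : (C ∩ D).Nonempty) :
    ∃ x ∈ Pt H A D C, ∃ y ∈ D, H.Adj x y := by
  obtain ⟨x, hxC, hxA⟩ := h1
  obtain ⟨y, hyC, hyD⟩ := h2
  have hx : x ∈ Pt H A D C := by
    refine ⟨{x}, by simpa using hxC, ?_, con_single x, rfl, ⟨x, rfl, hxA⟩⟩
    rw [Set.disjoint_singleton_left]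
    exact fun h => (Set.disjoint_left.1 hAD hxA h)
  obtain ⟨p⟩ := hC.preconnected ⟨x, hxC⟩ ⟨y, hyC⟩
  have key : ∀ (a b : C) (p : (H.induce C).Walk a b), a.1 ∈ Pt H A D C → b.1 ∈ D →
      ∃ x ∈ Pt H A D C, ∃ y ∈ D, H.Adj x y := by
    intro a b p
    induction p with
    | @nil a =>
      rintro ⟨T, hTC, hTD, hT, haT, hTA⟩ hD
      exact absurd hD (Set.disjoint_left.1 hTD haT)
    | @cons a c b hac p ih =>
      intro ha hb
      have hac' : H.Adj a.1 c.1 := hac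
      by_cases hc : c.1 ∈ D
      · exact ⟨a.1, ha, c.1, hc, hac'⟩
      · refine ih ?_ hb
        obtain ⟨T, hTC, hTD, hT, haT, z, hzT, hzA⟩ := ha
        refine ⟨insert c.1 T, Set.insert_subset c.2 hTC, ?_, hT.insert haT hac',
          Set.mem_insert _ _, z, Set.mem_insert_of_mem _ hzT, hzA⟩
        rw [Set.disjoint_insert_left]
        exact ⟨hc, hTD⟩
  exact key _ _ p hx hyD

theorem tp3 : TP3Stmt := by
  intro V W G H B C hM
  obtain ⟨r, hr⟩ : ∃ r : V → V → Prop, IsWellOrder V r := ⟨WellOrderingRel, inferInstance⟩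
  have htri : ∀ u v, r u v ∨ u = v ∨ r v u := fun u v => trichotomous_of r u v
  have hasym : ∀ u v, r u v → ¬ r v u := fun u v h h' => asymm_of r h h'
  -- the new branch sets
  let B' : V → Set W := fun u => {z | z ∈ B u ∨ ∃ v, G.Adj u v ∧ r u v ∧ z ∈ Pt H (B u) (B v) (C u v)}
  have hPC : ∀ u v z, z ∈ Pt H (B u) (B v) (C u v) → z ∈ C u v ∧ z ∉ B v := by
    rintro u v z ⟨T, hTC, hTD, hT, hz, -⟩
    exact ⟨hTC hz, Set.disjoint_left.1 hTD hz⟩
  refine ⟨B', ?_, ?_, ?_⟩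
  · intro u
    have hne : (B u).Nonempty := by
      obtain ⟨⟨x, hx⟩⟩ := (hM.cB u).nonempty
      exact ⟨x, hx⟩
    obtain ⟨b0, hb0⟩ := hne
    refine con_of_base (b0 := b0) (Or.inl hb0) ?_
    rintro a (ha | ⟨v, huv, hr', T, hTC, hTD, hT, haT, z, hzT, hzB⟩)
    · exact ⟨B u, fun z hz => Or.inl hz, hM.cB u, ha, hb0⟩
    · refine ⟨T ∪ B u, ?_, hT.union (hM.cB u) hzT hzB, Or.inl haT, Or.inr hb0⟩
      rintro y (hy | hy)
      · exact Or.inr ⟨v, huv, hr', T, hTC, hTD, hT, hy, z, hzT, hzB⟩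
      · exact Or.inl hy
  · intro u w huw
    rw [Set.disjoint_left]
    have hBP : ∀ u w v z, u ≠ w → G.Adj u v → z ∈ Pt H (B u) (B v) (C u v) → z ∉ B w := by
      intro u w v z huw huv hz hw
      obtain ⟨h1, h2⟩ := hPC u v z hz
      by_cases hwv : w = v
      · rw [hwv] at hw
        exact h2 hw
      · exact Set.disjoint_left.1 (hM.out u v huv w huw.symm hwv) h1 hw
    rintro z (h1 | ⟨v, huv, ruv, h1⟩) (h2 | ⟨x, hwx, rwx, h2⟩)
    · exact Set.disjoint_left.1 (hM.dB u w huw) h1 h2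
    · exact hBP w u x z huw.symm hwx h2 h1
    · exact hBP u w v z huw huv h1 h2
    · refine Set.disjoint_left.1 (hM.sep u v w x huv hwx ?_ ?_) (hPC _ _ _ h1).1 (hPC _ _ _ h2).1
      · rintro ⟨h, -⟩
        exact huw h.symm
      · rintro ⟨rfl, rfl⟩
        exact hasym _ _ ruv rwx
  · intro u v huv
    rcases htri u v with h | h | h
    · obtain ⟨x, hx, y, hy, hxy⟩ := exists_adj (hM.dB u v huv.ne) (hM.cC u v huv) (hM.mu u v huv)
        (hM.mv u v huv)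
      exact ⟨x, Or.inr ⟨v, huv, h, hx⟩, y, Or.inl hy, hxy⟩
    · exact absurd h huv.ne
    · obtain ⟨x, hx, y, hy, hxy⟩ := exists_adj (hM.dB v u huv.ne') (hM.cC v u huv.symm)
        (hM.mu v u huv.symm) (hM.mv v u huv.symm)
      exact ⟨y, Or.inl hy, x, Or.inr ⟨u, huv.symm, h, hx⟩, hxy.symm⟩

end Pool.Agent.H80.RCQ.TP3
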