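import Pool.Agent.H6.RCQ.Stmts5

set_option autoImplicit false

namespace Pool.Agent.H80.RCQ.SM7

open Pool.Agent.H6.RCQ Pool.Agent.H39.RC Pool.Agent.H3.RCR
open Classical

theorem sm7 : SM7Stmt := by
  intro F x hF hx
  -- the neighbours
  obtain ⟨b, hb⟩ := mem_verts'.1 hx
  have hfin : Finite {y : ℕ // Adj F x y} := by
    have : Finite {y : ℕ // y ∈ verts F} := inferInstance
    exact Finite.of_injective (β := {y : ℕ // y ∈ verts F})
      (fun y => ⟨y.1, hF.toPre.mem_right y.2⟩) (fun y z h => by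
        simp only [Subtype.mk.injEq] at h
        exact Subtype.ext h)
  have hnext : ∀ y : {y : ℕ // Adj F x y}, ∃ z : {y : ℕ // Adj F x y}, (x, y.1, z.1) ∈ F := by
    rintro ⟨y, z, hz⟩
    exact ⟨⟨z, hF.toPre.adj_symm ⟨y, hF.toPre.rot2 hz⟩⟩, hz⟩
  choose f hf using hnext
  have hfi : Function.Injective f := by
    intro y z h
    have h1 := hf y
    have h2 := hf z
    rw [h] at h1
    exact Subtype.ext (hF.toPre.uniq' (hF.rot _ _ _ h1) (hF.rot _ _ _ h2))
  set y0 : {y : ℕ // Adj F x y} := ⟨b, hb⟩ with hy0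
  set n := Function.minimalPeriod f y0 with hn
  have hper : y0 ∈ Function.periodicPts f := hfi.mem_periodicPts y0
  have hn0 : 0 < n := Function.minimalPeriod_pos_of_mem_periodicPts hper
  have hit : ∀ i, f^[i % n] y0 = f^[i] y0 := fun i => by
    rw [hn]; exact Function.iterate_mod_minimalPeriod_eq
  refine ⟨n, fun i => (f^[i] y0).1, hn0, ?_, ?_, ?_⟩
  · intro i hi j hj h
    exact Function.iterate_injOn_Iio_minimalPeriod (f := f) (x := y0) hi hj (Subtype.ext h)
  · intro i _
    simp only [hit, Function.iterate_succ_apply']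
    exact hf _
  · intro y hy
    have h1 := hF.link x b y hb hy
    have key : ∃ i, (f^[i] y0).1 = y := by
      induction h1 with
      | refl => exact ⟨0, rfl⟩
      | @tail p q hbp hpq ih =>
        obtain ⟨i, hi⟩ := ih ⟨q, hpq⟩
        refine ⟨i + 1, ?_⟩
        rw [Function.iterate_succ_apply']
        have h2 := hf (f^[i] y0)
        rw [hi] at h2
        exact hF.uniq _ _ _ _ h2 hpq
    obtain ⟨i, hi⟩ := key
    exact ⟨i % n, Nat.mod_lt _ hn0, by simp only [hit]; exact hi⟩

end Pool.Agent.H80.RCQ.SM7
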